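import Pool.Agent.H78.CM.Targets

/-!
# Module ISO: the group of the isometries of a compact metric space
-/

set_option autoImplicit false

open Filter Topology MeasureTheory Set
open scoped BoundedContinuousFunction

universe u

namespace Pool.Agent.H17.CM

open Pool.Agent.H78.CM

section

variable (Y : Type u) [MetricSpace Y] [CompactSpace Y]

/-- an isometry as a bounded continuous function -/
noncomputable def emb (g : Y ≃ᵢ Y) : Y →ᵇ Y :=
  BoundedContinuousFunction.mkOfCompact ⟨g, g.continuous⟩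

theorem emb_apply (g : Y ≃ᵢ Y) (y : Y) : emb Y g y = g y := rfl

theorem emb_inj : Function.Injective (emb Y) := by
  intro g h hgh
  ext y
  have := congrArg (fun f : Y →ᵇ Y => f y) hgh
  exact this

/-- the metric of uniform convergence -/
@[reducible] noncomputable def ms : MetricSpace (Y ≃ᵢ Y) :=
  MetricSpace.induced (emb Y) (emb_inj Y) inferInstance

/-- isometries -/
def IS : Set (Y →ᵇ Y) := {f | Isometry f}

theorem isClosed_IS : IsClosed (IS Y) := by
  have : IS Y = ⋂ x, ⋂ y, {f : Y →ᵇ Y | dist (f x) (f y) = dist x y} := by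
    ext f
    simp only [IS, mem_ofPred_eq, mem_iInter]
    exact isometry_iff_dist_eq
  rw [this]
  refine isClosed_iInter fun x => isClosed_iInter fun y => ?_
  refine isClosed_eq ?_ continuous_const
  exact (continuous_eval_const x).dist (continuous_eval_const y)

theorem isCompact_IS : IsCompact (IS Y) := by
  refine BoundedContinuousFunction.arzela_ascoli₁ (IS Y) (isClosed_IS Y) ?_
  refine Metric.equicontinuous_of_continuity_modulus (fun t => t) tendsto_id _ ?_
  rintro x y ⟨f, hf⟩
  exact (Isometry.dist_eq hf x y).le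

/-- pairs of an isometry and its inverse -/
def RR : Set ((Y →ᵇ Y) × (Y →ᵇ Y)) :=
  {p | p.1 ∈ IS Y ∧ p.2 ∈ IS Y ∧ ∀ y, p.1 (p.2 y) = y ∧ p.2 (p.1 y) = y}

theorem isCompact_RR : IsCompact (RR Y) := by
  have h1 : RR Y = (IS Y ×ˢ IS Y) ∩ ⋂ y, {p | p.1 (p.2 y) = y ∧ p.2 (p.1 y) = y} := by
    ext p
    simp only [RR, mem_ofPred_eq, mem_inter_iff, mem_prod, mem_iInter]
    tauto
  rw [h1]
  refine ((isCompact_IS Y).prod (isCompact_IS Y)).inter_right ?_
  refine isClosed_iInter fun y => ?_
  refine IsClosed.inter (isClosed_eq ?_ continuous_const) (isClosed_eq ?_ continuous_const)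
  · exact continuous_fst.eval ((continuous_eval_const y).comp continuous_snd)
  · exact continuous_snd.eval ((continuous_eval_const y).comp continuous_fst)

theorem range_emb : range (emb Y) = Prod.fst '' RR Y := by
  ext f
  constructor
  · rintro ⟨g, rfl⟩
    refine ⟨(emb Y g, emb Y g.symm), ⟨g.isometry, g.symm.isometry, fun y => ⟨?_, ?_⟩⟩, rfl⟩
    · exact g.apply_symm_apply y
    · exact g.symm_apply_apply y
  · rintro ⟨⟨f, h⟩, ⟨hf, -, hfh⟩, rfl⟩
    refine ⟨⟨⟨f, h, fun y => (hfh y).2, fun y => (hfh y).1⟩, hf⟩, ?_⟩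
    ext y
    rfl

end

theorem X_ISO : T_ISO.{u} := by
  intro Y _ _
  let M : MetricSpace (Y ≃ᵢ Y) := ms Y
  have hiso : Isometry (emb Y) := fun _ _ => rfl
  have hle : ∀ (g h : Y ≃ᵢ Y) (C : ℝ), 0 ≤ C → (∀ y, dist (g y) (h y) ≤ C) → dist g h ≤ C := by
    intro g h C hC hy
    rw [← hiso.dist_eq]
    exact (BoundedContinuousFunction.dist_le hC).2 hy
  have hap : ∀ (g h : Y ≃ᵢ Y) (y : Y), dist (g y) (h y) ≤ dist g h := by
    intro g h y
    rw [← hiso.dist_eq]
    exact BoundedContinuousFunction.dist_coe_le_dist (f := emb Y g) (g := emb Y h) y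
  have hcomp : CompactSpace (Y ≃ᵢ Y) := by
    refine ⟨?_⟩
    rw [hiso.isEmbedding.isInducing.isCompact_iff, image_univ, range_emb]
    exact (isCompact_RR Y).image continuous_fst
  refine ⟨M.toUniformSpace.toTopologicalSpace, ?_, hcomp, inferInstance, ?_, ?_, ?_⟩
  · refine @IsTopologicalGroup.mk (Y ≃ᵢ Y) _ _ ⟨?_⟩ ⟨?_⟩
    · have : LipschitzWith 2 (fun p : (Y ≃ᵢ Y) × (Y ≃ᵢ Y) => p.1 * p.2) := by
        refine LipschitzWith.of_dist_le_mul fun p q => ?_
        have h1 : dist (p.1 * p.2) (q.1 * q.2) ≤ dist p.1 q.1 + dist p.2 q.2 := by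
          refine hle _ _ _ (by positivity) fun y => ?_
          have h2 : dist (p.1 (p.2 y)) (q.1 (q.2 y)) ≤
              dist (p.1 (p.2 y)) (p.1 (q.2 y)) + dist (p.1 (q.2 y)) (q.1 (q.2 y)) :=
            dist_triangle _ _ _
          rw [p.1.dist_eq] at h2
          have h3 := hap p.2 q.2 y
          have h4 := hap p.1 q.1 (q.2 y)
          have h5 : dist ((p.1 * p.2) y) ((q.1 * q.2) y) = dist (p.1 (p.2 y)) (q.1 (q.2 y)) := rfl
          rw [h5]
          linarith
        have h6 : dist p.1 q.1 ≤ dist p q := by rw [Prod.dist_eq]; exact le_max_left _ _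
        have h7 : dist p.2 q.2 ≤ dist p q := by rw [Prod.dist_eq]; exact le_max_right _ _
        have h8 : ((2 : NNReal) : ℝ) = 2 := rfl
        rw [h8]
        linarith
      exact this.continuous
    · have : LipschitzWith 1 (fun g : Y ≃ᵢ Y => g⁻¹) := by
        refine LipschitzWith.of_dist_le_mul fun g h => ?_
        rw [NNReal.coe_one, one_mul]
        refine hle _ _ _ dist_nonneg fun y => ?_
        have h1 := hap g h (h⁻¹ y)
        have h2 : h (h⁻¹ y) = y := h.apply_symm_apply y
        have h3 : g (g⁻¹ y) = y := g.apply_symm_apply y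
        rw [← g.dist_eq (g⁻¹ y) (h⁻¹ y), h3, dist_comm]
        rw [h2] at h1
        exact h1
      exact this.continuous
  · exact secondCountable_of_proper
  · intro y
    refine LipschitzWith.continuous (K := 1) ?_
    refine LipschitzWith.of_dist_le_mul fun g h => ?_
    rw [NNReal.coe_one, one_mul]
    exact hap g h y
  · intro U hU g hg
    obtain ⟨ε, hε, hb⟩ := Metric.isOpen_iff.1 hU g hg
    refine ⟨ε / 2, by positivity, fun h hh => hb ?_⟩
    rw [Metric.mem_ball]
    have := hle h g (ε / 2) (by positivity) fun y => (hh y).le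
    linarith

end Pool.Agent.H17.CM
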