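import Pool.Agent.H78.CM.Targets

/-!
# Module MIN: the canonical lift
-/

set_option autoImplicit false

open Filter Topology MeasureTheory Set

universe u

namespace Pool.Agent.H17.CM

open Pool.Agent.H78.CM

open scoped Matrix.Norms.L2Operator in
theorem lifts (h1 : T_LFT.{u}) (h2 : T_CNV.{u}) (K : Type u) [Group K] [TopologicalSpace K]
    [IsTopologicalGroup K] [CompactSpace K] (T : ℝ → Set K) (hT : OneP T) (m : ℕ)
    (τ : K →* Mat m) (hτ : Continuous τ) (ho : ∀ k, (τ k).transpose * τ k = 1) :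
    (∃ b : Mat m, ∀ t : ℝ, ∃ l ∈ T t, τ l = NormedSpace.exp (t • b)) ∧
    IsClosed {b : Mat m | ∀ t : ℝ, ∃ l ∈ T t, τ l = NormedSpace.exp (t • b)} ∧
    ∀ b b' : Mat m, (∀ t : ℝ, ∃ l ∈ T t, τ l = NormedSpace.exp (t • b)) →
      (∀ t : ℝ, ∃ l ∈ T t, τ l = NormedSpace.exp (t • b')) →
      ∀ t : ℝ, ∃ l ∈ T t, τ l = NormedSpace.exp (t • ((1 / 2 : ℝ) • (b + b'))) := by
  have hn : ∀ k, ‖τ k‖ ≤ 1 := by
    intro k
    have h3 : ‖star (τ k) * τ k‖ = ‖τ k‖ * ‖τ k‖ := CStarRing.norm_star_mul_self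
    have h4 : star (τ k) * τ k = 1 := by
      rw [← ho k, Matrix.star_eq_conjTranspose, Matrix.conjTranspose_eq_transpose_of_trivial]
    rw [h4, norm_one] at h3
    nlinarith [norm_nonneg (τ k)]
  exact ⟨h1 K T hT (Mat m) τ hτ hn, h2 K T hT (Mat m) τ hτ⟩

open scoped Matrix.Norms.L2Operator in
theorem exp_cont (m : ℕ) (b : Mat m) : Continuous fun t : ℝ => NormedSpace.exp (t • b) := by
  let _ : NormedAlgebra ℚ (Mat m) := NormedAlgebra.restrictScalars ℚ ℝ (Mat m)
  exact NormedSpace.exp_continuous.comp (continuous_id.smul continuous_const)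

theorem exp_add' {m : ℕ} (b : Mat m) (s t : ℝ) :
    NormedSpace.exp ((s + t) • b) = NormedSpace.exp (s • b) * NormedSpace.exp (t • b) := by
  rw [add_smul]
  exact Matrix.exp_add_of_commute _ _ (((Commute.refl b).smul_left s).smul_right t)

/-- the square of the Hilbert-Schmidt norm -/
noncomputable def qq {m : ℕ} (b : Mat m) : ℝ := ∑ i, ∑ j, b i j ^ 2

theorem qq_nonneg {m : ℕ} (b : Mat m) : 0 ≤ qq b :=
  Finset.sum_nonneg fun _ _ => Finset.sum_nonneg fun _ _ => sq_nonneg _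

theorem qq_entry {m : ℕ} (b : Mat m) (i j) : b i j ^ 2 ≤ qq b :=
  (Finset.single_le_sum (f := fun j => b i j ^ 2) (fun _ _ => sq_nonneg _)
    (Finset.mem_univ j)).trans (Finset.single_le_sum (f := fun i => ∑ j, b i j ^ 2)
      (fun _ _ => Finset.sum_nonneg fun _ _ => sq_nonneg _) (Finset.mem_univ i))

theorem qq_eq_zero {m : ℕ} {b : Mat m} (h : qq b ≤ 0) : b = 0 := by
  ext i j
  have h1 := (qq_entry b i j).trans h
  have h2 : b i j ^ 2 = 0 := le_antisymm h1 (sq_nonneg _)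
  simpa using h2

theorem qq_trace {m : ℕ} (b : Mat m) : qq b = (b.transpose * b).trace := by
  unfold qq
  rw [Matrix.trace, Finset.sum_comm]
  refine Finset.sum_congr rfl fun i _ => ?_
  rw [Matrix.diag_apply, Matrix.mul_apply]
  refine Finset.sum_congr rfl fun j _ => ?_
  rw [Matrix.transpose_apply, sq]

theorem qq_cont (m : ℕ) : Continuous (qq (m := m)) := by
  unfold qq
  refine continuous_finsetSum _ fun i _ => continuous_finsetSum _ fun j _ => ?_
  exact ((continuous_apply j).comp (continuous_apply i)).pow 2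

theorem qq_par {m : ℕ} (b b' : Mat m) :
    qq ((1 / 2 : ℝ) • (b + b')) = (qq b + qq b') / 2 - qq (b - b') / 4 := by
  unfold qq
  rw [← Finset.sum_add_distrib, Finset.sum_div, Finset.sum_div, ← Finset.sum_sub_distrib]
  refine Finset.sum_congr rfl fun i _ => ?_
  rw [← Finset.sum_add_distrib, Finset.sum_div, Finset.sum_div, ← Finset.sum_sub_distrib]
  refine Finset.sum_congr rfl fun j _ => ?_
  rw [Matrix.smul_apply, Matrix.add_apply, Matrix.sub_apply, smul_eq_mul]
  ring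

theorem qq_min {m : ℕ} {S : Set (Mat m)} (hS : IsClosed S) (hne : S.Nonempty) :
    ∃ b ∈ S, ∀ b' ∈ S, qq b ≤ qq b' := by
  obtain ⟨b0, hb0⟩ := hne
  have hc : IsCompact (S ∩ {b | qq b ≤ qq b0}) := by
    have h1 : IsCompact (Set.pi univ fun _ : Fin (m + 1) => Set.pi univ fun _ : Fin (m + 1) =>
        Icc (-√(qq b0)) (√(qq b0))) :=
      isCompact_univ_pi fun _ => isCompact_univ_pi fun _ => isCompact_Icc
    refine IsCompact.of_isClosed_subset h1 (hS.inter ?_) ?_
    · exact isClosed_le (qq_cont m) continuous_const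
    · rintro b ⟨-, hb⟩ i _ j _
      exact abs_le.1 (Real.abs_le_sqrt ((qq_entry b i j).trans hb))
  obtain ⟨b, hb, hmin⟩ := hc.exists_isMinOn ⟨b0, hb0, le_refl (qq b0)⟩ (qq_cont m).continuousOn
  refine ⟨b, hb.1, fun b' hb' => ?_⟩
  by_cases h : qq b' ≤ qq b0
  · exact hmin ⟨hb', h⟩
  · exact hb.2.trans (not_le.1 h).le

theorem X_MIN (h1 : T_LFT.{u}) (h2 : T_CNV.{u}) : T_MIN.{u} := by
  intro K _ _ _ _ T hT m τ hτ ho
  obtain ⟨hne, hcl, hmid⟩ := lifts h1 h2 K T hT m τ hτ ho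
  obtain ⟨b, hbS, hbmin⟩ := qq_min hcl hne
  have hb : ∀ t : ℝ, ∃ l ∈ T t, τ l = NormedSpace.exp (t • b) := hbS
  have huniq : ∀ b' : Mat m, (∀ t : ℝ, ∃ l ∈ T t, τ l = NormedSpace.exp (t • b')) →
      qq b' = qq b → b' = b := by
    intro b' hb' hq
    have h3 := hbmin _ (hmid b b' hb hb')
    rw [qq_par, hq] at h3
    have h4 : b - b' = 0 := qq_eq_zero (by linarith)
    exact (sub_eq_zero.1 h4).symm
  have hexp0 : NormedSpace.exp ((0 : ℝ) • b) = 1 := by
    rw [zero_smul, NormedSpace.exp_zero]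
  have hinv : ∀ k, τ k⁻¹ * τ k = 1 := fun k => by
    rw [← map_mul, inv_mul_cancel, map_one]
  have hinv' : ∀ k, τ k * τ k⁻¹ = 1 := fun k => by
    rw [← map_mul, mul_inv_cancel, map_one]
  refine ⟨b, ⟨?_, ?_, ?_, ?_⟩, fun k hk => ?_⟩
  · refine hT.closed.inter (isClosed_eq (hτ.comp continuous_snd) ?_)
    exact (exp_cont m b).comp continuous_fst
  · rintro s t k l ⟨hk, hk'⟩ ⟨hl, hl'⟩
    refine ⟨hT.mul _ _ _ _ hk hl, ?_⟩
    rw [map_mul, hk', hl', exp_add']
  · rintro t k ⟨hk, hk'⟩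
    refine ⟨hT.inv _ _ hk, ?_⟩
    have h3 : NormedSpace.exp (t • b) * NormedSpace.exp ((-t) • b) = 1 := by
      rw [← exp_add', add_neg_cancel, hexp0]
    calc τ k⁻¹ = τ k⁻¹ * (NormedSpace.exp (t • b) * NormedSpace.exp ((-t) • b)) := by
          rw [h3, mul_one]
      _ = (τ k⁻¹ * τ k) * NormedSpace.exp ((-t) • b) := by rw [hk', mul_assoc]
      _ = _ := by rw [hinv, one_mul]
  · intro t
    obtain ⟨l, hl, hl'⟩ := hb t
    exact ⟨l, hl, hl'⟩
  · let U : (Mat m)ˣ := ⟨τ k, τ k⁻¹, hinv' k, hinv k⟩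
    have hconj : ∀ t : ℝ, NormedSpace.exp (t • (τ k * b * τ k⁻¹)) =
        τ k * NormedSpace.exp (t • b) * τ k⁻¹ := by
      intro t
      have h3 := Matrix.exp_units_conj U (t • b)
      have h4 : (U : Mat m) * (t • b) * ((U⁻¹ : (Mat m)ˣ) : Mat m) =
          t • (τ k * b * τ k⁻¹) := by
        show τ k * (t • b) * τ k⁻¹ = _
        rw [mul_smul_comm, smul_mul_assoc]
      rw [h4] at h3
      exact h3
    have hb' : ∀ t : ℝ, ∃ l ∈ T t, τ l = NormedSpace.exp (t • (τ k * b * τ k⁻¹)) := by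
      intro t
      obtain ⟨l, hl, hl'⟩ := hb t
      refine ⟨k * l * k⁻¹, hk t l hl, ?_⟩
      rw [map_mul, map_mul, hl', hconj]
    have htr : τ k⁻¹ = (τ k).transpose := by
      calc τ k⁻¹ = ((τ k).transpose * τ k) * τ k⁻¹ := by rw [ho, one_mul]
        _ = _ := by rw [mul_assoc, hinv', mul_one]
    have hq : qq (τ k * b * τ k⁻¹) = qq b := by
      rw [qq_trace, qq_trace, htr, Matrix.transpose_mul, Matrix.transpose_mul,
        Matrix.transpose_transpose]
      have h3 : τ k * (b.transpose * (τ k).transpose) * (τ k * b * (τ k).transpose) =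
          τ k * (b.transpose * b * (τ k).transpose) := by
        calc _ = τ k * (b.transpose * ((τ k).transpose * τ k) * b * (τ k).transpose) := by
              noncomm_ring
          _ = _ := by rw [ho, mul_one]
      rw [h3, Matrix.trace_mul_comm, mul_assoc, ho, mul_one]
    have heq := huniq _ hb' hq
    rintro t l ⟨hl, hl'⟩
    refine ⟨hk t l hl, ?_⟩
    rw [map_mul, map_mul, hl', ← hconj, heq]

end Pool.Agent.H17.CM
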