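import Pool.Agent.H78.CM.Targets

/-!
# Module PWA: the operator of convolution with a continuous function is compact
-/

set_option autoImplicit false

open Filter Topology MeasureTheory Set
open scoped BoundedContinuousFunction RealInnerProductSpace

universe u

namespace Pool.Agent.H17.CM

open Pool.Agent.H78.CM

/-- the operator given by a continuous map to a Hilbert space -/
noncomputable def S1 {K H : Type*} [TopologicalSpace K] [CompactSpace K] [NormedAddCommGroup H]
    [InnerProductSpace ℝ H] (F : K → H) (hF : Continuous F) (C : ℝ) (hC0 : 0 ≤ C)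
    (hC : ∀ x, ‖F x‖ ≤ C) : H →L[ℝ] (K →ᵇ ℝ) :=
  LinearMap.mkContinuous
    { toFun := fun h => BoundedContinuousFunction.mkOfCompact
        ⟨fun x => ⟪F x, h⟫, hF.inner continuous_const⟩
      map_add' := fun h h' => by
        ext x
        exact inner_add_right (F x) h h'
      map_smul' := fun c h => by
        ext x
        exact inner_smul_right (F x) h c } C fun h => by
    refine (BoundedContinuousFunction.norm_le (by positivity)).2 fun x => ?_
    exact (norm_inner_le_norm (F x) h).trans (mul_le_mul_of_nonneg_right (hC x) (norm_nonneg h))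

theorem S1_apply {K H : Type*} [TopologicalSpace K] [CompactSpace K] [NormedAddCommGroup H]
    [InnerProductSpace ℝ H] (F : K → H) (hF : Continuous F) (C : ℝ) (hC0 : 0 ≤ C)
    (hC : ∀ x, ‖F x‖ ≤ C) (h : H) (x : K) : S1 F hF C hC0 hC h x = ⟪F x, h⟫ := rfl

theorem S1_compact {K H : Type*} [TopologicalSpace K] [CompactSpace K] [NormedAddCommGroup H]
    [InnerProductSpace ℝ H] (F : K → H) (hF : Continuous F) (C : ℝ) (hC0 : 0 ≤ C)
    (hC : ∀ x, ‖F x‖ ≤ C) : IsCompactOperator (S1 F hF C hC0 hC) := by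
  rw [isCompactOperator_iff_exists_mem_nhds_image_subset_compact]
  refine ⟨Metric.ball 0 1, Metric.ball_mem_nhds _ one_pos,
    closure (S1 F hF C hC0 hC '' Metric.ball 0 1), ?_, subset_closure⟩
  refine BoundedContinuousFunction.arzela_ascoli (Icc (-C) C) isCompact_Icc _ ?_ ?_
  · rintro _ x ⟨h, hh, rfl⟩
    rw [S1_apply]
    have h1 : ‖h‖ < 1 := by simpa using hh
    have h2 := (norm_inner_le_norm (𝕜 := ℝ) (F x) h).trans
      (mul_le_mul (hC x) h1.le (norm_nonneg h) hC0)
    rw [mul_one, Real.norm_eq_abs] at h2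
    exact abs_le.1 h2
  · intro x0
    rw [Metric.equicontinuousAt_iff_right]
    intro ε hε
    have h3 := Metric.tendsto_nhds.1 (hF.tendsto x0) ε hε
    filter_upwards [h3] with x hx
    rintro ⟨_, h, hh, rfl⟩
    have h1 : ‖h‖ < 1 := by simpa using hh
    show dist (S1 F hF C hC0 hC h x0) (S1 F hF C hC0 hC h x) < ε
    rw [S1_apply, S1_apply, dist_comm, Real.dist_eq, ← inner_sub_left, ← Real.norm_eq_abs]
    refine ((norm_inner_le_norm (F x - F x0) h).trans
      (mul_le_of_le_one_right (norm_nonneg _) h1.le)).trans_lt ?_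
    rwa [← dist_eq_norm]

theorem X_PWA : T_PWA.{u} := by
  intro K _ _ _ _ _ _ _ _ μ _ _ f
  let G : C(K, C(K, ℝ)) := ContinuousMap.curry
    ⟨fun p : K × K => f (p.1⁻¹ * p.2), f.continuous.comp (continuous_fst.inv.mul continuous_snd)⟩
  have hG : ∀ x y, G x y = f (x⁻¹ * y) := fun _ _ => rfl
  let F : K → Lp ℝ 2 μ := fun x => ContinuousMap.toLp 2 μ ℝ (G x)
  have hF : Continuous F := (ContinuousMap.toLp 2 μ ℝ).continuous.comp G.continuous
  obtain ⟨C, hC⟩ := isCompact_univ.exists_bound_of_continuousOn hF.continuousOn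
  have hC' : ∀ x, ‖F x‖ ≤ C := fun x => hC x (mem_univ x)
  have hC0 : 0 ≤ C := (norm_nonneg _).trans (hC' 1)
  refine ⟨(BoundedContinuousFunction.toLp 2 μ ℝ).comp (S1 F hF C hC0 hC'), ?_, fun h => ?_⟩
  · exact (S1_compact F hF C hC0 hC').clm_comp (BoundedContinuousFunction.toLp 2 μ ℝ)
  · have h1 := BoundedContinuousFunction.coeFn_toLp (p := 2) (𝕜 := ℝ) μ (S1 F hF C hC0 hC' h)
    refine h1.trans (Filter.Eventually.of_forall fun x => ?_)
    rw [S1_apply, MeasureTheory.L2.inner_def]
    refine integral_congr_ae ?_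
    filter_upwards [ContinuousMap.coeFn_toLp (p := 2) (𝕜 := ℝ) μ (G x)] with y hy
    have h2 : ⟪(F x) y, h y⟫ = (F x) y * h y := by
      rw [real_inner_comm]
      simp [mul_comm]
    rw [h2, hy, hG]

end Pool.Agent.H17.CM
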